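import Mathlib
import Pool.Agent.N537.OV.Main

/-!
# A sharp comparison theorem for arcs in the ovals problem of Benguria and Loss (MP_2801bd_mp)

Let `γ : ℝ → ℝⁿ` be `C²` with `|γ'| = 1`, `κ = |γ''|`, `p < q`, `ℓ = q - p` the length of the arc
`γ[p, q]` and `d = |γ(q) - γ(p)|` its chord.  The lowest eigenvalue of `-d²/ds² + κ²` on the arc, with
any Robin or Dirichlet conditions at the two ends, is at least that of `-d²/ds²` on a straight segment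
of length `(ℓ + d)/2` with the same boundary conditions.

For a closed curve of length `2π` and `q = p + 2π` (`d = 0`) the segment has length `π`: with the
Dirichlet condition (`A₀ = A₁ = π/2`, `t = 1`) this is the inequality `E(φ) ≥ ∫ φ²` of the ovals
problem for every periodic `φ` with a zero, and with `A₀ = A₁ = π t/2`, `t < 1`,
it is `E(φ) + 2 t tan(π t/2) φ(p)² ≥ t² ∫ φ²` for every `φ` and every `p`.

Proof.  For `ε > 0` put `X(s) = γ(s) - γ(p)`, `N = (|X|² + ε²)^{1/2}`, `μ = ⟪X, γ'⟫/N`,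
`a = t(s-p)/2 - A₀`, `b = t N/2`.  Then
`u = -t (((1+μ)/2)² tan(a+b) + 2 ((1+μ)/2) ((1-μ)/2) tan a + ((1-μ)/2)² tan(a-b))`
satisfies `u' + u² + t² ≤ κ²` on the arc, by `1 + tan x tan y ≤ (tan x - tan y)/(x - y)` and
`⟪X, γ''⟫² ≤ κ² (N² - ⟪X, γ'⟫²)`; the arguments stay in `(-π/2, π/2)` because
`s - p + |X(s)| ≤ ℓ + d` and `|X(s)| ≤ s - p`.
-/

set_option autoImplicit false

open scoped ContDiff

namespace Pool.Agent.Results.MP_2801bd_mp.ArcComparison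

/-- Let `γ` be a `C²` unit-speed curve in `ℝⁿ`, `p < q`, `t > 0` and `A₀, A₁ ≤ π/2` with
`t ((q - p) + |γ(q) - γ(p)|)/2 ≤ A₀ + A₁`.  Then
`t² ∫ φ² ≤ ∫ (φ'² + |γ''|² φ²) + t tan(A₀) φ(p)² + t tan(A₁) φ(q)²` (integrals over `[p, q]`)
for every `φ` of class `C¹`, where `φ(p) = 0` is required if `A₀ = π/2` and `φ(q) = 0` if
`A₁ = π/2`. -/
theorem result (n : ℕ) (γ : ℝ → EuclideanSpace ℝ (Fin n)) (hγ : ContDiff ℝ 2 γ)
    (hT : ∀ s : ℝ, ‖deriv γ s‖ = 1) (φ : ℝ → ℝ) (hφ : ContDiff ℝ 1 φ)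
    (p q t A₀ A₁ : ℝ) (hpq : p < q) (ht : 0 < t)
    (hA₀ : A₀ ≤ Real.pi / 2) (hA₁ : A₁ ≤ Real.pi / 2)
    (h₀ : A₀ = Real.pi / 2 → φ p = 0) (h₁ : A₁ = Real.pi / 2 → φ q = 0)
    (hA : t * ((q - p + ‖γ q - γ p‖) / 2) ≤ A₀ + A₁) :
    t ^ 2 * (∫ s in p..q, (φ s) ^ 2) ≤
      (∫ s in p..q, ((deriv φ s) ^ 2 + ‖deriv (deriv γ) s‖ ^ 2 * (φ s) ^ 2)) +
        t * Real.tan A₀ * (φ p) ^ 2 + t * Real.tan A₁ * (φ q) ^ 2 := by
  have hT1 : ContDiff ℝ 1 (deriv γ) := by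
    have : ContDiff ℝ (1 + 1) γ := by simpa [one_add_one_eq_two] using hγ
    exact (contDiff_succ_iff_deriv.1 this).2.2
  exact Pool.Agent.N537.OV.arc (γ := γ) (T := deriv γ) (K := deriv (deriv γ)) (φ := φ)
    (φ' := deriv φ)
    (fun s => (hγ.differentiable (by norm_num) s).hasDerivAt)
    (fun s => (hT1.differentiable (by norm_num) s).hasDerivAt)
    (hT1.continuous_deriv (by norm_num)) hT
    (fun s => (hφ.differentiable (by norm_num) s).hasDerivAt)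
    (hφ.continuous_deriv (by norm_num)) hpq ht hA hA₀ hA₁ h₀ h₁

end Pool.Agent.Results.MP_2801bd_mp.ArcComparison
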